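import Pool.Agent.H83.F4.Ctx
import Pool.Agent.H83.F4.Abs2

/-!
# Theorem FOUR (MP_75f39d): pair_good
-/

set_option autoImplicit false

namespace Pool.Agent.H83.F4

open Finset Pool.Agent.H97.GEN Pool.Agent.H83.ELZ Pool.Agent.H97.R3
open Pool.Agent.H97.R4 (bM FoM mem_FoM)

variable {α : Type*} [DecidableEq α] {J P : Finset (Finset α)} {B' v a b : Finset α} {x : α}

theorem InW.pair_good' (hF : HF J P) (ha : InW J P B' x v a) (hb : InW J P B' x v b) (hab : a ≠ b)
    (ho : Out J B' a b) (ho' : Out J B' b a) :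
    0 < bb J (B' ∪ a ∪ b) a ∨ 0 < bb J (B' ∪ a ∪ b) b := by
  by_cases hpos : 0 < bb J (B' ∪ a ∪ b) a
  · exact Or.inl hpos
  right
  have hX : B' ∪ a ∪ b ∈ unions J := union_mem (ha.top_mem hF) (self_mem (hF.PJ hb.2.1))
  have haX : a ⊆ B' ∪ a ∪ b := Finset.subset_union_right.trans Finset.subset_union_left
  have hbX : b ⊆ B' ∪ a ∪ b := Finset.subset_union_right
  have h4 := ha.card hF
  have h0 : ¬ Tr J (B' ∪ a ∪ b) a ∅ := by
    unfold Tr
    rw [Finset.union_empty]
    exact InW.no_empty hF ha hb ho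
  have hnn := bM_nonneg4 (M := Tr J (B' ∪ a ∪ b) a) (C := a) (fun S S' => Tr_union S S')
    (Tr_top hX haX) h4 h0
  have hz : bM (Tr J (B' ∪ a ∪ b) a) a = 0 := by
    rw [bb_eq] at hpos
    omega
  obtain ⟨⟨r, hra, hr⟩, hFo, hsing⟩ := bM_zero4 (M := Tr J (B' ∪ a ∪ b) a) (C := a)
    (fun S S' => Tr_union S S') (Tr_top hX haX) h4 h0 hz
  have hxa := ha.x_mem.1
  have hxb := hb.x_mem.1
  -- the intersection
  have htau : Tr J (B' ∪ a ∪ b) a (a ∩ b) := by
    unfold Tr
    rw [InW.tau hF ha hb]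
    exact hb.top_mem hF
  obtain ⟨p, hp, hpT⟩ := hsing _ Finset.inter_subset_left htau
  obtain ⟨hpa, hpb⟩ := Finset.mem_inter.1 hp
  have hmin := InW.min hF ha hb ho hpT (union_eq_of_sub haX (Finset.singleton_subset_iff.2 hpa)) (by
    intro z hz
    obtain ⟨h1, h2⟩ := Finset.mem_inter.1 hz
    rcases Finset.mem_union.1 h1 with h3 | h3
    · exact absurd h2 (Finset.mem_sdiff.1 h3).2
    · rw [Finset.mem_singleton.1 h3]
      exact hp)
  have hsub : ∀ z ∈ a, z ∈ b → z = p := by
    intro z hza hzb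
    rcases Finset.mem_union.1 (hmin (Finset.mem_inter.2 ⟨hza, hzb⟩)) with h3 | h3
    · exact absurd hza (Finset.mem_sdiff.1 h3).2
    · exact Finset.mem_singleton.1 h3
  have hxp : x = p := hsub x hxa hxb
  subst hxp
  -- `r` is private
  have hpriv : ∀ g ∈ J, g ⊆ B' ∪ a ∪ b → r ∈ g → g = a := by
    intro g hg hgX hrg
    by_contra hga
    by_cases hgP : g ∈ P
    · have hA : B' ∪ b ∪ g ∈ unions J := union_mem (hb.top_mem hF) (self_mem hg)
      have hAa : (B' ∪ b ∪ g) ∪ a = B' ∪ a ∪ b := by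
        apply Finset.Subset.antisymm
        · intro z hz
          simp only [Finset.mem_union] at hz ⊢
          rcases hz with ((h | h) | h) | h
          · exact Or.inl (Or.inl h)
          · exact Or.inr h
          · have := hgX h
            simpa only [Finset.mem_union] using this
          · exact Or.inl (Or.inr h)
        · intro z hz
          simp only [Finset.mem_union] at hz ⊢
          tauto
      have h1 := Tr_inter hA hAa
      have h2 := hr _ Finset.inter_subset_right h1
        (Finset.mem_inter.2 ⟨Finset.mem_union_right _ hrg, hra⟩)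
      have h3 : a ⊆ {x} ∪ (g ∩ a) := by
        intro z hz
        have hz' := hz
        rw [← h2] at hz'
        rcases Finset.mem_union.1 (Finset.mem_inter.1 hz').1 with h5 | h5
        · rcases Finset.mem_union.1 h5 with h6 | h6
          · exact Finset.mem_union_left _ (Finset.mem_singleton.2 ((ha.mem_iff_x h6).1 hz))
          · exact Finset.mem_union_left _ (Finset.mem_singleton.2 (hsub z hz h6))
        · exact Finset.mem_union_right _ (Finset.mem_inter.2 ⟨h5, hz⟩)
      have h6 := Finset.card_le_card h3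
      have h7 := Finset.card_union_le {x} (g ∩ a)
      have h8 := hF.share a ha.2.1 g hgP hga
      rw [Finset.card_singleton] at h7
      omega
    · have h1 : r ∈ Fo J (B' ∪ a ∪ b) a := by
        rw [mem_Fo' haX]
        exact ⟨hra, fun A hA hAa => hF.in_P ha.2.1 hg hgX hrg hra hgP hA hAa hrg⟩
      rw [Fo_eq, hFo] at h1
      exact absurd h1 (Finset.notMem_empty r)
  have hrx : r ≠ x := by
    rintro rfl
    have h1 := hr _ (Finset.singleton_subset_iff.2 hpa) hpT (Finset.mem_singleton_self _)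
    rw [← h1, Finset.card_singleton] at h4
    omega
  have hrb : r ∉ b := fun h => hrx (hsub r hra h)
  have hxF : x ∈ Fo J (B' ∪ a ∪ b) b := by
    rw [mem_Fo' hbX]
    refine ⟨hxb, fun A hA hAb => ?_⟩
    have hrA : r ∈ A := by
      have : r ∈ A ∪ b := by
        rw [hAb]
        exact haX hra
      rcases Finset.mem_union.1 this with h | h
      · exact h
      · exact absurd h hrb
    obtain ⟨g, hg, hgA, hrg⟩ := (mem_iff hA r).1 hrA
    have hgX : g ⊆ B' ∪ a ∪ b := by
      rw [← hAb]
      exact hgA.trans Finset.subset_union_left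
    have := hpriv g hg hgX hrg
    rw [this] at hgA
    exact hgA hxa
  have h1 := hF.forced_le hX hb.2.1 hbX ⟨x, hxF⟩
  have h2 : 0 < (Fo J (B' ∪ a ∪ b) b).card := Finset.card_pos.2 ⟨x, hxF⟩
  have h3 : 1 ≤ uu J (B' ∪ a ∪ b) b := by
    unfold uu
    split_ifs <;> norm_num
  have h4 : (1 : ℤ) ≤ ((Fo J (B' ∪ a ∪ b) b).card : ℤ) := by exact_mod_cast h2
  nlinarith

end Pool.Agent.H83.F4
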