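import Pool.Agent.H27.F4.TabB

/-!
# Union-closed families on four points: table P3 (MP_75f39d, Theorem FOUR)
-/

set_option autoImplicit false

namespace Pool.Agent.H27.F4

open Finset Pool.Agent.H97.S4

theorem g3 : go P3 16 [] = true := by decide +kernel

end Pool.Agent.H27.F4
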