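import Pool.Agent.H27.F4.TabA
import Pool.Agent.H27.F4.TabB
import Pool.Agent.H27.F4.TabC

/-!
# Union-closed families on four points: the tables T1, T2, T3 (MP_75f39d, Theorem FOUR), one module each
-/

set_option autoImplicit false

namespace Pool.Agent.H27.F4

open Finset Pool.Agent.H97.S4

theorem pair_of (G : ℕ) (hG : G < 16) (i : ℕ) (hi : i < 4) (hb : G.testBit i = true)
    (hc : pc G ≤ 2) : ∃ j < 4, G.testBit j = true ∧ 2 ^ i ||| 2 ^ j = G := by
  revert i G
  decide

end Pool.Agent.H27.F4
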