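import Pool.Agent.H97.S4.Mach

/-!
# Union-closed families on four points: tables T1, T2, T3 (MP_75f39d, Theorem FOUR)
-/

set_option autoImplicit false

namespace Pool.Agent.H27.F4

open Finset Pool.Agent.H97.S4

/-- The number of singles. -/
def sb (p : ℕ → Bool) : ℕ := bt (p 1) + bt (p 2) + bt (p 4) + bt (p 8)

def P1 (p : ℕ → Bool) : Bool :=
  !(p 15) || p 0 || foc p == 0 || decide ((if foc p = 4 then 1 else 2) * foc p + neg p ≤ pos p)

def hGb (p : ℕ → Bool) : Bool :=
  !(p 0) || (List.range 15).all fun S => !(p S) || (List.range 4).all fun i => !(S.testBit i) ||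
    (List.range 4).any fun j => S.testBit j && p (2 ^ i ||| 2 ^ j)

def P2 (p : ℕ → Bool) : Bool :=
  !(p 15) || decide (neg p ≤ pos p) || !(hGb p) ||
    (p 0 && (pvb p 0 || pvb p 1 || pvb p 2 || pvb p 3) && decide (neg p ≤ pos p + 2 * sb p))

def P3 (p : ℕ → Bool) : Bool :=
  !(p 15) || decide (neg p ≤ pos p + sb p) ||
    (p 0 && (((List.range 4).any fun i => (List.range 4).any fun j => !(i == j) && pvb p i && pvb p j) ||
      (List.range 4).any fun i => pvb p i && (List.range 16).all fun S => S.testBit i || p S))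

end Pool.Agent.H27.F4
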